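import Mathlib

set_option autoImplicit false

namespace Pool.Agent.RatProg

open Polynomial

/-- Value of an integer polynomial in `ZMod p`. -/
noncomputable def ev (p : ℕ) (P : ℤ[X]) (y : ZMod p) : ZMod p :=
  (P.map (Int.castRingHom (ZMod p))).eval y

/-- `A` contains a nontrivial progression `x, x + P₁(y)/Q₁(y), x + P₂(y)/Q₂(y)`, where `y ≠ 0` and
`Q₁(y) Q₂(y) ≠ 0`. -/
def HasProgression (p : ℕ) [Fact p.Prime] (P₁ Q₁ P₂ Q₂ : ℤ[X]) (A : Finset (ZMod p)) : Prop :=
  ∃ x y : ZMod p, y ≠ 0 ∧ ev p Q₁ y ≠ 0 ∧ ev p Q₂ y ≠ 0 ∧ x ∈ A ∧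
    x + ev p P₁ y / ev p Q₁ y ∈ A ∧ x + ev p P₂ y / ev p Q₂ y ∈ A

/-- The rational function `P / Q` over the rationals. -/
noncomputable def ratf (P Q : ℤ[X]) : RatFunc ℚ :=
  algebraMap ℚ[X] (RatFunc ℚ) (P.map (Int.castRingHom ℚ)) /
    algebraMap ℚ[X] (RatFunc ℚ) (Q.map (Int.castRingHom ℚ))

theorem poly_identity {P₁ Q₁ P₂ Q₂ : ℤ[X]} (h1 : Q₁ ≠ 0) (h2 : Q₂ ≠ 0)
    (h : (1 : RatFunc ℚ) ∈ Submodule.span ℚ {ratf P₁ Q₁, ratf P₂ Q₂}) :
    ∃ a b c : ℤ, c ≠ 0 ∧ C a * P₁ * Q₂ + C b * P₂ * Q₁ = C c * Q₁ * Q₂ := by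
  rw [Submodule.mem_span_pair] at h
  obtain ⟨s, t, hst⟩ := h
  have hinj : Function.Injective (algebraMap ℚ[X] (RatFunc ℚ)) := RatFunc.algebraMap_injective ℚ
  have hinj2 : Function.Injective (Polynomial.map (Int.castRingHom ℚ)) :=
    Polynomial.map_injective _ (Int.castRingHom ℚ).injective_int
  have hq1 : algebraMap ℚ[X] (RatFunc ℚ) (Q₁.map (Int.castRingHom ℚ)) ≠ 0 := by
    rw [Ne, map_eq_zero_iff _ hinj]
    intro h0
    exact h1 (hinj2 (by simpa using h0))
  have hq2 : algebraMap ℚ[X] (RatFunc ℚ) (Q₂.map (Int.castRingHom ℚ)) ≠ 0 := by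
    rw [Ne, map_eq_zero_iff _ hinj]
    intro h0
    exact h2 (hinj2 (by simpa using h0))
  -- clear denominators
  have key : C s * (P₁.map (Int.castRingHom ℚ)) * (Q₂.map (Int.castRingHom ℚ)) +
      C t * (P₂.map (Int.castRingHom ℚ)) * (Q₁.map (Int.castRingHom ℚ)) =
      (Q₁.map (Int.castRingHom ℚ)) * (Q₂.map (Int.castRingHom ℚ)) := by
    apply hinj
    simp only [map_add, map_mul]
    unfold ratf at hst
    rw [Algebra.smul_def, Algebra.smul_def] at hst
    have e1 : ∀ r : ℚ, algebraMap ℚ[X] (RatFunc ℚ) (C r) = algebraMap ℚ (RatFunc ℚ) r := by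
      intro r
      rw [IsScalarTower.algebraMap_apply ℚ ℚ[X] (RatFunc ℚ)]
      rfl
    rw [e1, e1]
    field_simp at hst
    linear_combination hst
  refine ⟨s.num * t.den, t.num * s.den, s.den * t.den, ?_, ?_⟩
  · exact mul_ne_zero (by exact_mod_cast s.den_ne_zero) (by exact_mod_cast t.den_ne_zero)
  · apply hinj2
    simp only [Polynomial.map_add, Polynomial.map_mul, Polynomial.map_C]
    have e2 : (Int.castRingHom ℚ) (s.num * t.den) = (s.den : ℚ) * t.den * s := by
      simp only [eq_intCast, Int.cast_mul, Int.cast_natCast]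
      have := Rat.mul_den_eq_num s
      rw [← this]
      ring
    have e3 : (Int.castRingHom ℚ) (t.num * s.den) = (s.den : ℚ) * t.den * t := by
      simp only [eq_intCast, Int.cast_mul, Int.cast_natCast]
      have := Rat.mul_den_eq_num t
      rw [← this]
      ring
    have e4 : (Int.castRingHom ℚ) ((s.den : ℤ) * t.den) = (s.den : ℚ) * t.den := by
      simp
    rw [e2, e3, e4, C_mul, C_mul (b := t)]
    linear_combination (C ((s.den : ℚ) * t.den)) * key

theorem ev_identity {P₁ Q₁ P₂ Q₂ : ℤ[X]} {a b c : ℤ}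
    (h : C a * P₁ * Q₂ + C b * P₂ * Q₁ = C c * Q₁ * Q₂) (p : ℕ) [Fact p.Prime] (y : ZMod p)
    (h1 : ev p Q₁ y ≠ 0) (h2 : ev p Q₂ y ≠ 0) :
    (a : ZMod p) * (ev p P₁ y / ev p Q₁ y) + b * (ev p P₂ y / ev p Q₂ y) = c := by
  have := congrArg (fun P => ev p P y) h
  simp only [ev, Polynomial.map_add, Polynomial.map_mul, Polynomial.map_C, eval_add, eval_mul,
    eval_C] at this
  simp only [eq_intCast] at this
  unfold ev at h1 h2 ⊢
  field_simp
  linear_combination this

/-- The dense progression-free sets. -/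
theorem dense_free {P₁ Q₁ P₂ Q₂ : ℤ[X]} {a b c : ℤ}
    (h : C a * P₁ * Q₂ + C b * P₂ * Q₁ = C c * Q₁ * Q₂) (p : ℕ) [hp : Fact p.Prime]
    (hc : (c : ZMod p) ≠ 0) (hp2 : 2 < p) :
    ∃ A : Finset (ZMod p), ¬ HasProgression p P₁ Q₁ P₂ Q₂ A ∧
      (p : ℝ) ≤ 4 * (|a| + |b| + 1) * (A.card : ℝ) := by
  classical
  set M : ℤ := |a| + |b| + 1 with hM
  have hMpos : 0 < M := by positivity
  -- multiplier
  obtain ⟨H, hH⟩ : ∃ H : ℕ, p = 2 * H + 1 := by
    rcases hp.out.eq_two_or_odd' with h | ⟨k, hk⟩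
    · omega
    · exact ⟨k, hk⟩
  set u : ZMod p := (H : ZMod p) / (c : ZMod p) with hu
  have hhalf : H < p := by omega
  have hhalfpos : 0 < H := by omega
  have hu0 : u ≠ 0 := by
    rw [hu]
    apply div_ne_zero _ hc
    rw [Ne, ZMod.natCast_eq_zero_iff]
    exact Nat.not_dvd_of_pos_of_lt hhalfpos hhalf
  have huc : u * c = (H : ZMod p) := by
    rw [hu]
    field_simp
  -- the set: u x has small residue
  let A : Finset (ZMod p) := Finset.univ.filter (fun x => 4 * M * ((u * x).val : ℤ) < p)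
  refine ⟨A, ?_, ?_⟩
  · rintro ⟨x, y, hy, h1, h2, hx0, hx1, hx2⟩
    have hid := ev_identity h p y h1 h2
    set x1 := x + ev p P₁ y / ev p Q₁ y with hx1'
    set x2 := x + ev p P₂ y / ev p Q₂ y with hx2'
    simp only [A, Finset.mem_filter, Finset.mem_univ, true_and] at hx0 hx1 hx2
    set m0 : ℤ := ((u * x).val : ℤ) with hm0
    set m1 : ℤ := ((u * x1).val : ℤ) with hm1
    set m2 : ℤ := ((u * x2).val : ℤ) with hm2
    have c0 : (m0 : ZMod p) = u * x := by simp [hm0]
    have c1 : (m1 : ZMod p) = u * x1 := by simp [hm1]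
    have c2 : (m2 : ZMod p) = u * x2 := by simp [hm2]
    have hcong : ((a * (m1 - m0) + b * (m2 - m0) - (H : ℤ) : ℤ) : ZMod p) = 0 := by
      push_cast
      rw [c0, c1, c2, ← huc, ← hid, hx1', hx2']
      ring
    rw [ZMod.intCast_zmod_eq_zero_iff_dvd] at hcong
    have n0 : 0 ≤ m0 := by positivity
    have n1 : 0 ≤ m1 := by positivity
    have n2 : 0 ≤ m2 := by positivity
    have hd1 : |m1 - m0| * (4 * M) < p := by
      rcases abs_cases (m1 - m0) with ⟨h, _⟩ | ⟨h, _⟩ <;> rw [h] <;> nlinarith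
    have hd2 : |m2 - m0| * (4 * M) < p := by
      rcases abs_cases (m2 - m0) with ⟨h, _⟩ | ⟨h, _⟩ <;> rw [h] <;> nlinarith
    have hS : |a * (m1 - m0) + b * (m2 - m0)| * (4 * M) ≤ M * p := by
      have t1 : |a * (m1 - m0) + b * (m2 - m0)| ≤ |a| * |m1 - m0| + |b| * |m2 - m0| := by
        calc |a * (m1 - m0) + b * (m2 - m0)| ≤ |a * (m1 - m0)| + |b * (m2 - m0)| := abs_add_le _ _
          _ = |a| * |m1 - m0| + |b| * |m2 - m0| := by rw [abs_mul, abs_mul]
      have ha : 0 ≤ |a| := abs_nonneg a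
      have hb : 0 ≤ |b| := abs_nonneg b
      have g1 : |a| * (|m1 - m0| * (4 * M)) ≤ |a| * p := mul_le_mul_of_nonneg_left hd1.le ha
      have g2 : |b| * (|m2 - m0| * (4 * M)) ≤ |b| * p := mul_le_mul_of_nonneg_left hd2.le hb
      have g3 : |a * (m1 - m0) + b * (m2 - m0)| * (4 * M) ≤ (|a| * |m1 - m0| + |b| * |m2 - m0|) * (4 * M) :=
        mul_le_mul_of_nonneg_right t1 (by positivity)
      have hpp : (0 : ℤ) ≤ p := by positivity
      nlinarith
    have hS2 : 4 * |a * (m1 - m0) + b * (m2 - m0)| ≤ p := by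
      nlinarith
    obtain ⟨k, hk⟩ := hcong
    set S := a * (m1 - m0) + b * (m2 - m0) with hSdef
    have hp1 : (p : ℤ) = 2 * H + 1 := by exact_mod_cast hH
    have hH1 : (1 : ℤ) ≤ H := by exact_mod_cast hhalfpos
    have h6 : - |S| ≤ S := neg_abs_le S
    have h7 : S ≤ |S| := le_abs_self S
    rcases lt_trichotomy k 0 with hk0 | hk0 | hk0
    · have : (p : ℤ) * k ≤ - p := by nlinarith
      linarith
    · rw [hk0, mul_zero] at hk
      linarith
    · have : (p : ℤ) ≤ p * k := by nlinarith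
      linarith
  · -- cardinality: the map j ↦ u⁻¹ j is injective on small j
    have hinj : ((Finset.range p).filter (fun j : ℕ => 4 * M * (j : ℤ) < p)).card ≤ A.card := by
      apply Finset.card_le_card_of_injOn (fun j : ℕ => u⁻¹ * (j : ZMod p))
      · intro j hj
        rw [Finset.mem_coe, Finset.mem_filter, Finset.mem_range] at hj
        simp only [A, Finset.coe_filter, Finset.mem_univ, true_and, Set.mem_ofPred_eq]
        rw [← mul_assoc, mul_inv_cancel₀ hu0, one_mul, ZMod.val_natCast_of_lt hj.1]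
        exact hj.2
      · intro i hi j hj hij
        rw [Finset.mem_coe, Finset.mem_filter, Finset.mem_range] at hi hj
        simp only at hij
        have h8 := mul_left_cancel₀ (inv_ne_zero hu0) hij
        have h9 := congrArg ZMod.val h8
        rwa [ZMod.val_natCast_of_lt hi.1, ZMod.val_natCast_of_lt hj.1] at h9
    have hcount : (p : ℝ) ≤ 4 * M * (((Finset.range p).filter (fun j : ℕ => 4 * M * (j : ℤ) < p)).card : ℝ) := by
      -- number of j with 4 M j < p is at least p / (4 M)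
      obtain ⟨m, hm⟩ : ∃ m : ℕ, (m : ℤ) = 4 * M := ⟨(4 * M).toNat, by simp [Int.toNat_of_nonneg (by positivity : (0:ℤ) ≤ 4 * M)]⟩
      have hm1 : 1 ≤ m := by
        have : (1 : ℤ) ≤ m := by rw [hm]; linarith
        exact_mod_cast this
      have hsub : Finset.range ((p + m - 1) / m) ⊆ (Finset.range p).filter (fun j : ℕ => 4 * M * (j : ℤ) < p) := by
        intro j hj
        rw [Finset.mem_range] at hj
        have h10 : m * j < p := by
          have h11 : j + 1 ≤ (p + m - 1) / m := hj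
          have h12 : (j + 1) * m ≤ p + m - 1 := (Nat.le_div_iff_mul_le (by omega)).1 h11
          have : (j + 1) * m = m * j + m := by ring
          omega
        rw [Finset.mem_filter, Finset.mem_range]
        constructor
        · calc j = 1 * j := (one_mul j).symm
            _ ≤ m * j := Nat.mul_le_mul_right _ hm1
            _ < p := h10
        · rw [← hm]
          exact_mod_cast h10
      have hcard := Finset.card_le_card hsub
      rw [Finset.card_range] at hcard
      have h13 : p ≤ m * ((p + m - 1) / m) := by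
        have := Nat.div_add_mod (p + m - 1) m
        have h14 := Nat.mod_lt (p + m - 1) (show 0 < m by omega)
        omega
      have h15 : p ≤ m * ((Finset.range p).filter (fun j : ℕ => 4 * M * (j : ℤ) < p)).card :=
        h13.trans (Nat.mul_le_mul_left _ hcard)
      have h16 : (p : ℝ) ≤ (m : ℝ) * (((Finset.range p).filter (fun j : ℕ => 4 * M * (j : ℤ) < p)).card : ℝ) := by
        exact_mod_cast h15
      have h17 : (m : ℝ) = 4 * (M : ℝ) := by exact_mod_cast hm
      rw [h17] at h16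
      exact h16
    have h18 : (((Finset.range p).filter (fun j : ℕ => 4 * M * (j : ℤ) < p)).card : ℝ) ≤ (A.card : ℝ) := by
      exact_mod_cast hinj
    have h19 : (M : ℝ) = |(a : ℝ)| + |(b : ℝ)| + 1 := by
      rw [hM]
      push_cast
      ring
    have h20 : (0 : ℝ) < (M : ℝ) := by exact_mod_cast hMpos
    calc (p : ℝ) ≤ 4 * M * (((Finset.range p).filter (fun j : ℕ => 4 * M * (j : ℤ) < p)).card : ℝ) := hcount
      _ ≤ 4 * M * (A.card : ℝ) := by
          apply mul_le_mul_of_nonneg_left h18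
          positivity
      _ = _ := by rw [h19]; push_cast; ring

end Pool.Agent.RatProg
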